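import Pool.Agent.J6H93.NG.G11.F0

/-! Certificate data (G11): conclusion -/

set_option autoImplicit false

namespace Pool.Agent.J6H93.NG.G11

open Pool.Agent.J6H93.NG

theorem all : RW 11 4 1 := by
  have h1 := F0.all (fun m hm => absurd hm (Nat.not_lt_zero m))
  exact h1 183 (by norm_num)

end Pool.Agent.J6H93.NG.G11
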